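import Pool.Agent.Work.MP_e0279d_an.Main

open Pool.Agent.Work.MP_e0279d_an

/-- For every `ω > 0` the points `P_l = (l ω, A_l)`, `l ≥ 1`, where `A_l` is the largest `A` for
which the Heun equation with `B = l ω` has a nonzero polynomial solution, are not collinear. -/
theorem Pool.Agent.Results.MP_e0279d_an.NotCollinear.result (ω : ℝ) (hω : 0 < ω) :
    ¬ Collinear ℝ {p : ℝ × ℝ | ∃ l : ℕ, 1 ≤ l ∧ p.1 = l * ω ∧
      IsGreatest {A : ℝ | HasPolySol ω (l * ω) A} p.2} :=
  main hω
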